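import Mathlib

set_option autoImplicit false

namespace Pool.Agent.Q107.BasicRing

open Polynomial

universe u v

/-- The left half of the basic condition. -/
def LeftBasic (R : Type v) [Ring R] : Prop :=
  ∀ (M A : Type u) [AddCommGroup M] [Module R M] [AddCommGroup A] [Module R A],
    Module.Finite R M → ∀ f i : A →ₗ[R] M, Function.Surjective f → Function.Injective i →
      Function.Bijective f

/-- Every square matrix is a root of a monic polynomial with integer coefficients. -/
def MatAlg (R : Type v) [Ring R] : Prop :=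
  ∀ (n : ℕ) (r : Matrix (Fin n) (Fin n) R), ∃ q : ℤ[X], q.Monic ∧ aeval r q = 0

section basic

variable {R : Type v} [Ring R]

theorem step {A M : Type u} [AddCommGroup A] [AddCommGroup M] [Module R M] [Module R A]
    (f i : A →ₗ[R] M) (hi : Function.Injective i) (a : ℕ → A) (h0 : f (a 0) = 0)
    (hs : ∀ j, f (a (j + 1)) = i (a j)) (d : ℕ) :
    ∀ (c : ℕ → ℤ), (∑ j ∈ Finset.range (d + 1), c j • a j) = 0 → c d = 1 → a 0 = 0 := by
  induction d with
  | zero =>
    intro c h hc
    simp only [zero_add, Finset.sum_range_one, hc, one_smul] at h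
    exact h
  | succ d ih =>
    intro c h hc
    apply ih (fun j => c (j + 1)) _ hc
    apply hi
    rw [map_zero, map_sum]
    have h1 := congrArg f h
    rw [map_zero, map_sum, Finset.sum_range_succ'] at h1
    rw [map_zsmul, h0, smul_zero, add_zero] at h1
    rw [← h1]
    apply Finset.sum_congr rfl
    intro j _
    rw [map_zsmul, map_zsmul, hs]

theorem leftBasic (h : MatAlg R) : LeftBasic.{u, v} R := by
  intro M A _ _ _ _ hfin f i hf hi
  refine ⟨?_, hf⟩
  rw [← LinearMap.ker_eq_bot, LinearMap.ker_eq_bot']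
  intro a0 ha0
  obtain ⟨n, m, hm⟩ := Module.Finite.exists_fin (R := R) (M := M)
  -- lifts of the generators
  choose g hg using fun j => hf (m j)
  have hrep : ∀ x : M, ∃ c : Fin n → R, x = ∑ j, c j • m j := by
    intro x
    have hx : x ∈ Submodule.span R (Set.range m) := by rw [hm]; trivial
    rw [Submodule.mem_span_range_iff_exists_fun] at hx
    obtain ⟨c, hc⟩ := hx
    exact ⟨c, hc.symm⟩
  choose r hr using fun j => hrep (i (g j))
  obtain ⟨c0, hc0⟩ := hrep (i a0)
  let rm : Matrix (Fin n) (Fin n) R := Matrix.of r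
  let φ : (Fin n → R) → M := fun c => ∑ j, c j • m j
  let ψ : (Fin n → R) → A := fun c => ∑ j, c j • g j
  have hfψ : ∀ c, f (ψ c) = φ c := by
    intro c
    simp only [ψ, φ, map_sum, map_smul, hg]
  have hiψ : ∀ c, i (ψ c) = φ (Matrix.vecMul c rm) := by
    intro c
    simp only [ψ, φ, map_sum, map_smul]
    have h1 : ∀ j, i (g j) = ∑ l, rm j l • m l := fun j => hr j
    simp only [h1, Finset.smul_sum, Matrix.vecMul, dotProduct, Finset.sum_smul, smul_smul]
    rw [Finset.sum_comm]
  let a : ℕ → A := fun j => Nat.casesOn j a0 (fun j => ψ (Matrix.vecMul c0 (rm ^ j)))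
  have ha : ∀ j, i (a j) = φ (Matrix.vecMul c0 (rm ^ j)) := by
    intro j
    cases j with
    | zero =>
      show i a0 = _
      rw [pow_zero, Matrix.vecMul_one]
      exact hc0
    | succ j =>
      show i (ψ (Matrix.vecMul c0 (rm ^ j))) = _
      rw [hiψ, Matrix.vecMul_vecMul, ← pow_succ]
  have hs : ∀ j, f (a (j + 1)) = i (a j) := by
    intro j
    rw [ha j]
    show f (ψ (Matrix.vecMul c0 (rm ^ j))) = _
    rw [hfψ]
  obtain ⟨q, hq, hq0⟩ := h n rm
  have key := step f i hi a ha0 hs q.natDegree (fun j => q.coeff j)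
  apply key _ hq
  apply hi
  rw [map_zero, map_sum]
  have h2 : ∀ j, i ((q.coeff j) • a j) = (q.coeff j) • φ (Matrix.vecMul c0 (rm ^ j)) := by
    intro j; rw [map_zsmul, ha]
  simp only [h2]
  have h3 : φ (Matrix.vecMul c0 (aeval rm q)) =
      ∑ j ∈ Finset.range (q.natDegree + 1), (q.coeff j) • φ (Matrix.vecMul c0 (rm ^ j)) := by
    rw [aeval_eq_sum_range]
    let Φ : Matrix (Fin n) (Fin n) R →+ M :=
      { toFun := fun X => φ (Matrix.vecMul c0 X)
        map_zero' := by simp [φ]
        map_add' := by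
          intro X Y
          simp only [φ, Matrix.vecMul_add, Pi.add_apply, add_smul, Finset.sum_add_distrib] }
    show Φ _ = ∑ j ∈ Finset.range (q.natDegree + 1), (q.coeff j) • Φ (rm ^ j)
    rw [map_sum]
    apply Finset.sum_congr rfl
    intro j _
    rw [map_zsmul]
  rw [← h3, hq0]
  simp [φ]

theorem matAlg_op (h : MatAlg R) : MatAlg Rᵐᵒᵖ := by
  intro n r
  let r' : Matrix (Fin n) (Fin n) R := Matrix.of fun a b => (r b a).unop
  have hp : ∀ j : ℕ, ∀ a b, ((r ^ j) a b).unop = (r' ^ j) b a := by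
    intro j
    induction j with
    | zero =>
      intro a b
      rw [pow_zero, pow_zero, Matrix.one_apply, Matrix.one_apply]
      by_cases hab : a = b
      · simp [hab]
      · rw [if_neg hab, if_neg (fun h => hab h.symm)]; rfl
    | succ j ih =>
      intro a b
      rw [pow_succ, pow_succ', Matrix.mul_apply, Matrix.mul_apply, Finset.unop_sum]
      apply Finset.sum_congr rfl
      intro c _
      rw [MulOpposite.unop_mul, ih]
      rfl
  obtain ⟨q, hq, hq0⟩ := h n r'
  refine ⟨q, hq, ?_⟩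
  ext a b
  apply MulOpposite.unop_injective
  rw [aeval_eq_sum_range] at hq0 ⊢
  have h1 := congrFun (congrFun hq0 b) a
  rw [Matrix.sum_apply] at h1 ⊢
  rw [Finset.unop_sum]
  rw [show (0 : Matrix (Fin n) (Fin n) R) b a = 0 from rfl] at h1
  rw [show ((0 : Matrix (Fin n) (Fin n) Rᵐᵒᵖ) a b).unop = 0 from rfl, ← h1]
  apply Finset.sum_congr rfl
  intro j _
  rw [Matrix.smul_apply, Matrix.smul_apply, MulOpposite.unop_smul, hp]

end basic

section levitzki

variable {B : Type v} [Ring B]

/-- Products of `m` elements vanish. -/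
def Nlp (W : Ideal B) (m : ℕ) : Prop :=
  ∀ l : List B, l.length = m → (∀ x ∈ l, x ∈ W) → l.prod = 0

theorem pair_prod (W J : Ideal B) (hJ : ∀ x ∈ J, ∀ y ∈ J, x * y ∈ W) (m : ℕ) :
    ∀ l : List B, l.length = 2 * m → (∀ x ∈ l, x ∈ J) →
      ∃ l' : List B, l'.length = m ∧ (∀ x ∈ l', x ∈ W) ∧ l'.prod = l.prod := by
  induction m with
  | zero =>
    intro l hl _
    have hl0 : l = [] := List.length_eq_zero_iff.mp (by simpa using hl)
    subst hl0
    exact ⟨[], rfl, by simp, rfl⟩
  | succ m ih =>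
    intro l hl hJl
    match l, hl, hJl with
    | x :: y :: l, hl, hJl =>
      obtain ⟨l', h1, h2, h3⟩ := ih l (by simp at hl; omega)
        (fun z hz => hJl z (by simp [hz]))
      refine ⟨(x * y) :: l', by simp [h1], ?_, ?_⟩
      · intro z hz
        rw [List.mem_cons] at hz
        rcases hz with rfl | hz
        · exact hJ x (hJl x (by simp)) y (hJl y (by simp))
        · exact h2 z hz
      · simp [h3, mul_assoc]

/-- Levitzki: nil ideals of left noetherian rings are nilpotent. -/
theorem levitzki [IsNoetherianRing B] (N : Ideal B) [hN : N.IsTwoSided]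
    (hnil : ∀ x ∈ N, ∃ k : ℕ, x ^ k = 0) : ∃ m, Nlp N m := by
  classical
  let S : Set (Ideal B) := {W | W.IsTwoSided ∧ ∃ m, Nlp W m}
  have hwf : WellFounded ((· > ·) : Ideal B → Ideal B → Prop) :=
    (inferInstance : WellFoundedGT (Ideal B)).wf
  have hS : S.Nonempty := by
    refine ⟨⊥, inferInstance, 1, ?_⟩
    intro l hl hx
    obtain ⟨a, rfl⟩ := List.length_eq_one_iff.mp hl
    have := hx a (by simp)
    rw [Ideal.mem_bot] at this
    simp [this]
  obtain ⟨W, ⟨hW2, m, hWm⟩, hWmax⟩ := hwf.has_min S hS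
  by_cases hNW : N ≤ W
  · exact ⟨m, fun l hl hx => hWm l hl (fun x h => hNW (hx x h))⟩
  exfalso
  -- left annihilators modulo `W`
  let L : B → Ideal B := fun a =>
    { carrier := {x | x * a ∈ W}
      add_mem' := by
        intro x y hx hy
        simp only [Set.mem_ofPred_eq] at *
        rw [add_mul]; exact W.add_mem hx hy
      zero_mem' := by simp
      smul_mem' := by
        intro c x hx
        simp only [Set.mem_ofPred_eq, smul_eq_mul] at *
        rw [mul_assoc]; exact W.mul_mem_left c hx }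
  have hL : ∀ a x, x ∈ L a ↔ x * a ∈ W := fun a x => Iff.rfl
  let T : Set (Ideal B) := {I | ∃ a ∈ N, a ∉ W ∧ I = L a}
  have hT : T.Nonempty := by
    obtain ⟨a, ha, ha'⟩ := SetLike.not_le_iff_exists.mp hNW
    exact ⟨L a, a, ha, ha', rfl⟩
  obtain ⟨_, ⟨a, haN, haW, rfl⟩, hmax⟩ := hwf.has_min T hT
  have h1W : (1 : B) ∉ W := by
    intro h
    apply haW
    have := W.mul_mem_left a h
    rwa [mul_one] at this
  have hkey : ∀ y, a * y * a ∈ W := by
    intro y
    by_cases hay : a * y ∈ W
    · exact hW2.mul_mem_of_left _ hay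
    have hayN : a * y ∈ N := hN.mul_mem_of_left _ haN
    have hex : ∃ k, (a * y) ^ k ∈ W := by
      obtain ⟨k, hk⟩ := hnil _ hayN
      exact ⟨k, by rw [hk]; exact W.zero_mem⟩
    set k := Nat.find hex with hk
    have hk1 : (a * y) ^ k ∈ W := Nat.find_spec hex
    have hk2 : 2 ≤ k := by
      by_contra hlt
      interval_cases hkk : k
      · rw [pow_zero] at hk1; exact h1W hk1
      · rw [pow_one] at hk1; exact hay hk1
    obtain ⟨j, hj⟩ : ∃ j, k = j + 2 := ⟨k - 2, by omega⟩
    have hb1 : (a * y) ^ (j + 1) ∉ W := Nat.find_min hex (by omega)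
    have hb2 : (a * y) ^ (j + 1) ∈ N := by
      rw [pow_succ]; exact N.mul_mem_left _ hayN
    have hle : L a ≤ L ((a * y) ^ (j + 1)) := by
      intro x hx
      rw [hL] at hx ⊢
      rw [pow_succ', ← mul_assoc, ← mul_assoc]
      exact hW2.mul_mem_of_left _ (hW2.mul_mem_of_left _ hx)
    have hnot := hmax (L ((a * y) ^ (j + 1))) ⟨_, hb2, hb1, rfl⟩
    have heq : L a = L ((a * y) ^ (j + 1)) := by
      by_contra hne
      exact hnot (lt_of_le_of_ne hle hne)
    have : a * y ∈ L a := by
      rw [heq, hL, ← pow_succ', ← hj.trans rfl]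
      exact hk1
    exact this
  -- the larger nilpotent ideal
  let J1 : Ideal B :=
    { carrier := {x | ∀ y, a * y * x ∈ W}
      add_mem' := by
        intro x z hx hz y
        rw [mul_add]; exact W.add_mem (hx y) (hz y)
      zero_mem' := by intro y; simp
      smul_mem' := by
        intro c x hx y
        rw [smul_eq_mul, ← mul_assoc, mul_assoc a]
        exact hx (y * c) }
  have hJ1 : ∀ x, x ∈ J1 ↔ ∀ y, a * y * x ∈ W := fun x => Iff.rfl
  have hJ1r : ∀ x ∈ J1, ∀ c, x * c ∈ J1 := by
    intro x hx c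
    rw [hJ1] at hx ⊢
    intro y
    rw [← mul_assoc]
    exact hW2.mul_mem_of_left _ (hx y)
  let J2 : Ideal B :=
    { carrier := {x | ∀ z ∈ J1, x * z ∈ W}
      add_mem' := by
        intro x y hx hy z hz
        rw [add_mul]; exact W.add_mem (hx z hz) (hy z hz)
      zero_mem' := by intro z _; simp
      smul_mem' := by
        intro c x hx z hz
        rw [smul_eq_mul, mul_assoc]
        exact W.mul_mem_left _ (hx z hz) }
  have hJ2 : ∀ x, x ∈ J2 ↔ ∀ z ∈ J1, x * z ∈ W := fun x => Iff.rfl
  have hWJ : W ≤ J1 ⊓ J2 := by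
    intro x hx
    refine ⟨?_, ?_⟩
    · intro y; exact W.mul_mem_left _ hx
    · intro z _; exact hW2.mul_mem_of_left _ hx
  have haJ : a ∈ J1 ⊓ J2 := by
    refine ⟨hkey, ?_⟩
    intro z hz
    have := hz 1
    rwa [mul_one] at this
  have hlt : J1 ⊓ J2 > W := lt_of_le_of_ne hWJ (fun h => haW (h ▸ haJ))
  refine hWmax (J1 ⊓ J2) ⟨⟨?_⟩, 2 * m, ?_⟩ hlt
  · intro x c hx
    refine ⟨hJ1r x hx.1 c, ?_⟩
    intro z hz
    rw [mul_assoc]
    exact hx.2 (c * z) (J1.mul_mem_left c hz)
  · intro l hl hx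
    obtain ⟨l', h1, h2, h3⟩ := pair_prod W (J1 ⊓ J2)
      (fun x hx y hy => hx.2 y hy.1) m l hl hx
    rw [← h3]
    exact hWm l' h1 h2

end levitzki

end Pool.Agent.Q107.BasicRing
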