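import Pool.Agent.Q107.Basic.Rel
import Pool.Agent.Q107.Basic.Ring

set_option autoImplicit false

namespace Pool.Agent.Q107.BasicRing

open Polynomial Pool.Agent.Helper824.GS

variable {K : Type} [Field K]

/-- The quotient of the free algebra. -/
abbrev Q (R : ℕ → Submodule K (FA K (Fin 3))) : Type := FA K (Fin 3) ⧸ J R

variable (R : ℕ → Submodule K (FA K (Fin 3)))

/-- The quotient map. -/
noncomputable def q : FA K (Fin 3) →+* Q R := Ideal.Quotient.mk (J R)

theorem q_eq_zero {a : FA K (Fin 3)} : q R a = 0 ↔ a ∈ Jsub R := by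
  change Ideal.Quotient.mk (J R) a = 0 ↔ _
  rw [Ideal.Quotient.eq_zero_iff_mem]
  rfl

theorem q_surj : Function.Surjective (q R) := Ideal.Quotient.mk_surjective

/-- The augmentation. -/
noncomputable def eps : FA K (Fin 3) →ₐ[K] K :=
  MonoidAlgebra.lift K K (FreeMonoid (Fin 3)) (FreeMonoid.lift (fun _ => (0 : K)))

theorem eps_mon (w : FreeMonoid (Fin 3)) :
    eps (mon w : FA K (Fin 3)) = if w.length = 0 then 1 else 0 := by
  have h0 : eps (mon w : FA K (Fin 3)) = FreeMonoid.lift (fun _ => (0 : K)) w := by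
    unfold eps mon
    rw [MonoidAlgebra.lift_single, one_smul]
  rw [h0]
  induction w using FreeMonoid.inductionOn' with
  | one => simp
  | of_mul i w ih => simp

theorem pr_zero_eps (a : FA K (Fin 3)) : pr K (Fin 3) 0 a = eps a • (1 : FA K (Fin 3)) := by
  induction a using FA_induction with
  | h0 => simp
  | hadd f g hf hg => rw [map_add, map_add, hf, hg, add_smul]
  | hsmul c f hf => rw [map_smul, map_smul, hf, smul_eq_mul, mul_smul]
  | hmon w =>
    rw [pr_mon, eps_mon]
    split_ifs with h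
    · rw [one_smul, FreeMonoid.length_eq_zero.mp h]; rfl
    · rw [zero_smul]

theorem ord_one {a : FA K (Fin 3)} (h : eps a = 0) : Ord 1 a := by
  intro m hm
  obtain rfl : m = 0 := by omega
  rw [pr_zero_eps, h, zero_smul]

theorem matAlg [Finite K] (hnil : ∀ (n : ℕ) (f : Matrix (Fin n) (Fin n) (FA K (Fin 3))),
    (∀ a b, Ord 1 (f a b)) → ∃ M, ∀ a b, (f ^ M) a b ∈ Jsub R) : MatAlg (Q R) := by
  intro n r
  choose F hF using fun a b => q_surj R (r a b)
  let Fm : Matrix (Fin n) (Fin n) (FA K (Fin 3)) := Matrix.of F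
  have hFr : (q R).mapMatrix Fm = r := by
    ext a b
    exact hF a b
  let ρ : Matrix (Fin n) (Fin n) K := (eps (K := K)).toRingHom.mapMatrix Fm
  have hfin : Finite (Matrix (Fin n) (Fin n) K) :=
    inferInstanceAs (Finite (Fin n → Fin n → K))
  obtain ⟨a', b', hne, hab'⟩ := Finite.exists_ne_map_eq_of_infinite (fun j : ℕ => ρ ^ j)
  obtain ⟨a, b, hab, h⟩ : ∃ a b : ℕ, a < b ∧ ρ ^ a = ρ ^ b := by
    rcases Nat.lt_or_gt_of_ne hne with h | h
    · exact ⟨a', b', h, hab'⟩
    · exact ⟨b', a', h, hab'.symm⟩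
  have hP : ∀ i j, Ord 1 ((Fm ^ b - Fm ^ a) i j) := by
    intro i j
    apply ord_one
    have h1 : (eps (K := K)).toRingHom.mapMatrix (Fm ^ b - Fm ^ a) = 0 := by
      rw [map_sub, map_pow, map_pow]
      show ρ ^ b - ρ ^ a = 0
      rw [h, sub_self]
    exact congrFun (congrFun h1 i) j
  obtain ⟨M, hM⟩ := hnil n _ hP
  refine ⟨(X ^ b - X ^ a) ^ M, ?_, ?_⟩
  · apply Monic.pow
    apply (monic_X_pow b).sub_of_left
    rw [degree_X_pow, degree_X_pow]
    exact_mod_cast hab
  · rw [map_pow, map_sub, map_pow, map_pow, aeval_X]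
    have h2 : r ^ b - r ^ a = (q R).mapMatrix (Fm ^ b - Fm ^ a) := by
      rw [map_sub, map_pow, map_pow, hFr]
    rw [h2, ← map_pow]
    ext i j
    exact (q_eq_zero R).mpr (hM i j)

theorem subring_top (hK : ∀ c : K, c = 0 ∨ c = 1) (S : Subring (Q R))
    (hS : ∀ i, q R (mon (FreeMonoid.of i)) ∈ S) : S = ⊤ := by
  rw [eq_top_iff]
  rintro x -
  obtain ⟨a, rfl⟩ := q_surj R x
  induction a using FA_induction with
  | h0 => rw [map_zero]; exact S.zero_mem
  | hadd f g hf hg => rw [map_add]; exact S.add_mem hf hg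
  | hsmul c f hf =>
    rcases hK c with rfl | rfl
    · rw [zero_smul, map_zero]; exact S.zero_mem
    · rw [one_smul]; exact hf
  | hmon w =>
    induction w using FreeMonoid.inductionOn' with
    | one => rw [mon_one, map_one]; exact S.one_mem
    | of_mul i w ih =>
      rw [← mon_mul, map_mul]
      exact S.mul_mem (hS i) ih

/-- The elements without constant term. -/
noncomputable def Nq : Ideal (Q R) where
  carrier := {x | ∃ a, Ord 1 a ∧ q R a = x}
  add_mem' := by
    rintro _ _ ⟨a, ha, rfl⟩ ⟨b, hb, rfl⟩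
    exact ⟨a + b, ha.add hb, map_add _ _ _⟩
  zero_mem' := ⟨0, Ord.zero' 1, map_zero _⟩
  smul_mem' := by
    rintro c _ ⟨a, ha, rfl⟩
    obtain ⟨c, rfl⟩ := q_surj R c
    exact ⟨c * a, ha.mul_left c, map_mul _ _ _⟩

instance : (Nq R).IsTwoSided where
  mul_mem_of_left := by
    rintro _ c ⟨a, ha, rfl⟩
    obtain ⟨c, rfl⟩ := q_surj R c
    exact ⟨a * c, ha.mul_right c, map_mul _ _ _⟩

theorem not_noetherian (hR : ∀ i, R i ≤ V K (Fin 3) i)
    (h2 : ∀ n, ∃ v : FreeMonoid (Fin 3), v.length = n ∧ (mon v : FA K (Fin 3)) ∉ Idl R n)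
    (hnil : ∀ (n : ℕ) (f : Matrix (Fin n) (Fin n) (FA K (Fin 3))),
      (∀ a b, Ord 1 (f a b)) → ∃ M, ∀ a b, (f ^ M) a b ∈ Jsub R) :
    ¬ IsNoetherianRing (Q R) := by
  intro hN
  obtain ⟨m, hm⟩ := levitzki (Nq R) (by
    rintro _ ⟨a, ha, rfl⟩
    obtain ⟨M, hM⟩ := hnil 1 (Matrix.of fun _ _ => a) (fun _ _ => ha)
    refine ⟨M, ?_⟩
    have h1 : ∀ M : ℕ, ((Matrix.of fun _ _ => a : Matrix (Fin 1) (Fin 1) (FA K (Fin 3))) ^ M) 0 0
        = a ^ M := by
      intro M
      induction M with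
      | zero => rw [pow_zero, pow_zero]; rfl
      | succ M ih =>
        rw [pow_succ, pow_succ, Matrix.mul_apply, Fin.sum_univ_one, ih]
        rfl
    rw [← map_pow, q_eq_zero, ← h1 M]
    exact hM 0 0)
  obtain ⟨v, hv, hv2⟩ := h2 m
  have h4 : (v.toList.map (fun i => q R (mon (FreeMonoid.of i)))).prod = q R (mon v) := by
    clear hv hv2
    induction v using FreeMonoid.inductionOn' with
    | one => simp [mon_one]
    | of_mul i w ih =>
      rw [FreeMonoid.toList_of_mul, List.map_cons, List.prod_cons, ih, ← mon_mul, map_mul]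
  have h5 := hm (v.toList.map (fun i => q R (mon (FreeMonoid.of i))))
    (by rw [List.length_map]; exact hv) (by
      intro x hx
      rw [List.mem_map] at hx
      obtain ⟨i, _, rfl⟩ := hx
      refine ⟨_, ?_, rfl⟩
      apply ord_one
      rw [eps_mon, FreeMonoid.length_of]
      simp)
  rw [h4, q_eq_zero] at h5
  have h6 := pr_mem_Idl hR h5 m
  rw [pr_mon, if_pos hv] at h6
  exact hv2 h6

end Pool.Agent.Q107.BasicRing
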