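import Pool.Agent.Helper824.GSRel

set_option autoImplicit false

namespace Pool.Agent.Q107.BasicRing

open Module Pool.Agent.Helper824.GS

variable {K : Type} [Field K]

theorem countable_A [Countable K] : Countable (FA K (Fin 3)) := by
  have : Countable (FreeMonoid (Fin 3)) := inferInstanceAs (Countable (List (Fin 3)))
  exact (MonoidAlgebra.coeffEquiv (R := K) (M := FreeMonoid (Fin 3))).injective.countable

theorem Ord_sum {ι : Type} {k : ℕ} (s : Finset ι) (f : ι → FA K (Fin 3))
    (h : ∀ i ∈ s, Ord k (f i)) : Ord k (∑ i ∈ s, f i) := by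
  intro m hm
  rw [map_sum]
  exact Finset.sum_eq_zero (fun i hi => h i hi m hm)

theorem Ord_pow {n : ℕ} (f : Matrix (Fin n) (Fin n) (FA K (Fin 3)))
    (hf : ∀ a b, Ord 1 (f a b)) (M : ℕ) : ∀ a b, Ord M ((f ^ M) a b) := by
  induction M with
  | zero => intro a b; exact Ord.zero _
  | succ M ih =>
    intro a b
    rw [pow_succ, Matrix.mul_apply]
    exact Ord_sum _ _ (fun c _ => (ih a c).mul (hf c b))

variable (K) in
/-- The tasks: square matrices with entries without constant term. -/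
abbrev Task : Type := Σ n : ℕ, {f : Fin n → Fin n → FA K (Fin 3) // ∀ a b, Ord 1 (f a b)}

theorem countable_Task [Countable K] : Countable (Task K) := by
  have := countable_A (K := K)
  infer_instance

/-- The power of the matrix. -/
noncomputable def pw (T : Task K) (M : ℕ) : Matrix (Fin T.1) (Fin T.1) (FA K (Fin 3)) :=
  (Matrix.of T.2.1) ^ M

/-- The exponent for the task with index `s`. -/
def ex (e : ℕ → Task K) (s : ℕ) : ℕ := (e s).1 ^ 2 + s + 16

/-- The component of degree `m` of an entry of the power. -/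
noncomputable def ent (e : ℕ → Task K) (m s : ℕ) (p : Fin (e s).1 × Fin (e s).1) :
    FA K (Fin 3) := pr K (Fin 3) m (pw (e s) (ex e s) p.1 p.2)

/-- The relations of degree `m` of one task. -/
noncomputable def Sp (e : ℕ → Task K) (m s : ℕ) : Submodule K (FA K (Fin 3)) :=
  if ex e s ≤ m then Submodule.span K (Set.range (ent e m s)) else ⊥

theorem Sp_pos {e : ℕ → Task K} {m s : ℕ} (h : ex e s ≤ m) :
    Sp e m s = Submodule.span K (Set.range (ent e m s)) := if_pos h

theorem Sp_neg {e : ℕ → Task K} {m s : ℕ} (h : ¬ ex e s ≤ m) : Sp e m s = ⊥ := if_neg h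

theorem Sp_fin (e : ℕ → Task K) (m s : ℕ) : FiniteDimensional K (Sp e m s) := by
  by_cases h : ex e s ≤ m
  · rw [Sp_pos h]
    exact FiniteDimensional.span_of_finite K (Set.finite_range _)
  · rw [Sp_neg h]
    infer_instance

theorem finrank_Sp (e : ℕ → Task K) (m s : ℕ) :
    finrank K (Sp e m s) ≤ if ex e s ≤ m then m else 0 := by
  by_cases h : ex e s ≤ m
  · rw [Sp_pos h, if_pos h]
    have h1 : finrank K (Submodule.span K (Set.range (ent e m s))) ≤
        Fintype.card (Fin (e s).1 × Fin (e s).1) := finrank_range_le_card (ent e m s)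
    have h2 : Fintype.card (Fin (e s).1 × Fin (e s).1) = (e s).1 * (e s).1 := by
      rw [Fintype.card_prod, Fintype.card_fin]
    have h3 : (e s).1 ^ 2 + s + 16 ≤ m := h
    have h4 : (e s).1 ^ 2 = (e s).1 * (e s).1 := sq _
    omega
  · rw [Sp_neg h, if_neg h, finrank_bot]

theorem Sp_le_V (e : ℕ → Task K) (m s : ℕ) : Sp e m s ≤ V K (Fin 3) m := by
  by_cases h : ex e s ≤ m
  · rw [Sp_pos h, Submodule.span_le]
    rintro _ ⟨p, rfl⟩
    exact pr_mem _ _ m _
  · rw [Sp_neg h]
    exact bot_le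

/-- The relations of degree `m`. -/
noncomputable def Rl (e : ℕ → Task K) (m : ℕ) : Submodule K (FA K (Fin 3)) :=
  ∑ s ∈ Finset.range m, Sp e m s

theorem Rl_le_V (e : ℕ → Task K) (m : ℕ) : Rl e m ≤ V K (Fin 3) m :=
  sum_le_of_le (fun s _ => Sp_le_V e m s)

/-- The bound for the number of relations. -/
def rb (m : ℕ) : ℕ := if 16 ≤ m then m ^ 2 else 0

theorem finrank_Rl (e : ℕ → Task K) (m : ℕ) : finrank K (Rl e m) ≤ rb m := by
  have h1 : finrank K (Rl e m) ≤ ∑ s ∈ Finset.range m, (if ex e s ≤ m then m else 0) := by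
    refine le_trans (finrank_sum_le (Finset.range m) _ (fun s _ => Sp_fin e m s) _ rfl).2 ?_
    exact Finset.sum_le_sum (fun s _ => finrank_Sp e m s)
  refine le_trans h1 ?_
  unfold rb
  split_ifs with h
  · calc ∑ s ∈ Finset.range m, (if ex e s ≤ m then m else 0) ≤ ∑ s ∈ Finset.range m, m := by
          apply Finset.sum_le_sum
          intro s _
          split_ifs <;> omega
      _ = m ^ 2 := by rw [Finset.sum_const, Finset.card_range, smul_eq_mul, sq]
  · apply le_of_eq
    apply Finset.sum_eq_zero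
    intro s _
    rw [if_neg]
    unfold ex
    omega

theorem rb_sum (n : ℕ) : ∑ i ∈ Finset.range n, (rb (i + 1) : ℝ) * (1 / 2) ^ (i + 1) ≤ 1 / 2 := by
  have h0 : ∀ n : ℕ, n ≤ 15 → ∑ i ∈ Finset.range n, (rb (i + 1) : ℝ) * (1 / 2) ^ (i + 1) = 0 := by
    intro n hn
    apply Finset.sum_eq_zero
    intro i hi
    rw [Finset.mem_range] at hi
    unfold rb
    rw [if_neg (by omega)]
    simp
  have h1 : ∀ n : ℕ, 15 ≤ n → ∑ i ∈ Finset.range n, (rb (i + 1) : ℝ) * (1 / 2) ^ (i + 1) ≤
      291 / 32768 - (((n : ℝ) + 1) ^ 2 + 2 * (n + 1) + 3) * (1 / 2) ^ n := by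
    intro n hn
    induction n, hn using Nat.le_induction with
    | base =>
      rw [h0 15 le_rfl]
      norm_num
    | succ n hn ih =>
      rw [Finset.sum_range_succ]
      have h2 : (rb (n + 1) : ℝ) = ((n : ℝ) + 1) ^ 2 := by
        unfold rb
        rw [if_pos (by omega)]
        push_cast
        ring
      rw [h2]
      push_cast
      have h3 : (1 / 2 : ℝ) ^ (n + 1) = (1 / 2) ^ n / 2 := by rw [pow_succ]; ring
      rw [h3]
      have h4 : (0 : ℝ) < (1 / 2) ^ n := by positivity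
      nlinarith
  rcases Nat.lt_or_ge n 15 with h | h
  · rw [h0 n (by omega)]; norm_num
  · refine le_trans (h1 n h) ?_
    have h5 : (0 : ℝ) ≤ (((n : ℝ) + 1) ^ 2 + 2 * (n + 1) + 3) * (1 / 2) ^ n := by positivity
    linarith

theorem key_mem (e : ℕ → Task K) (s : ℕ) (a b : Fin (e s).1) :
    pw (e s) (ex e s) a b ∈ Jsub (Rl e) := by
  obtain ⟨N, hN⟩ := exists_sum_pr K (Fin 3) (pw (e s) (ex e s) a b)
  rw [hN N le_rfl]
  apply Submodule.sum_mem
  intro m _
  by_cases hm : m < ex e s
  · rw [show pr K (Fin 3) m (pw (e s) (ex e s) a b) = 0 from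
      Ord_pow _ (e s).2.2 (ex e s) a b m hm]
    exact zero_mem _
  · have h1 : s < m := by unfold ex at hm; omega
    have h2 : pr K (Fin 3) m (pw (e s) (ex e s) a b) ∈ Rl e m := by
      have h3 := le_sum_of_mem (f := fun s => Sp e m s) (Finset.mem_range.mpr h1)
      apply h3
      show _ ∈ Sp e m s
      rw [Sp_pos (not_lt.mp hm)]
      exact Submodule.subset_span ⟨(a, b), rfl⟩
    exact R_le_Jsub (by omega) h2

theorem exists_rel [Countable K] : ∃ R : ℕ → Submodule K (FA K (Fin 3)),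
    (∀ i, R i ≤ V K (Fin 3) i) ∧
    (∀ n, ∃ v : FreeMonoid (Fin 3), v.length = n ∧ (mon v : FA K (Fin 3)) ∉ Idl R n) ∧
    ∀ (n : ℕ) (f : Matrix (Fin n) (Fin n) (FA K (Fin 3))), (∀ a b, Ord 1 (f a b)) →
      ∃ M, ∀ a b, (f ^ M) a b ∈ Jsub R := by
  have := countable_Task (K := K)
  have hne : Nonempty (Task K) := ⟨⟨0, ⟨fun a => a.elim0, fun a => a.elim0⟩⟩⟩
  obtain ⟨e, he⟩ := exists_surjective_nat (Task K)
  refine ⟨Rl e, Rl_le_V e, ?_, ?_⟩
  · apply exists_mon_notMem (Rl_le_V e) rb (finrank_Rl e) (1 / 2) (by norm_num)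
    intro n
    rw [Fintype.card_fin]
    have := rb_sum n
    push_cast
    linarith
  · intro n f hf
    obtain ⟨s, hs⟩ := he ⟨n, f, hf⟩
    have key := key_mem e s
    refine ⟨ex e s, ?_⟩
    generalize ex e s = M at key
    rw [hs] at key
    exact key

end Pool.Agent.Q107.BasicRing
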